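import Pool.Agent.TH882.U4

/-!
Representations of type `(a, b)` for all `a`, `b`: for every `ε > 0` and all large `X`, at least
`X / (log X) ^ ε` of the `n ≤ X` are such that `2 n` has a representation of type `(a, b)`, even with
`a`-prime at most `(log X) ^ (b + 2)`.
-/

set_option autoImplicit false

open Finset Filter Topology

namespace Pool.Agent.Results.MP_e3f158_nt.AllTypesManyEvenNumbers

open Pool.Agent.TH882.IX

/-- the `x`-th prime, for `x ≥ 1` -/
noncomputable def pr (x : ℕ) : ℕ := Nat.nth Nat.Prime (x - 1)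

/-- the `x`-th `i`-prime, for `x ≥ 1`: the `(i + 1)`-fold iterate of `pr` -/
noncomputable def iPrime (i x : ℕ) : ℕ := pr^[i + 1] x

/-- The pair of indices `(x, y)` is a representation of `m` of type `(a, b)`. -/
def IsRep (a b m x y : ℕ) : Prop :=
  1 ≤ x ∧ 1 ≤ y ∧ iPrime a x + iPrime b y = m ∧ iPrime a x ≠ iPrime b y

open Classical in
/-- The `n ≤ X` for which `2 n` has a representation of type `(a, b)` with `a`-prime at most
`(log X) ^ (b + 2)`. -/
noncomputable def represented (a b X : ℕ) : Finset ℕ :=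
  (Icc 1 X).filter (fun n => ∃ x y : ℕ, IsRep a b (2 * n) x y ∧
    (iPrime a x : ℝ) ≤ Real.log X ^ (b + 2))

lemma exists_index (i : ℕ) : ∀ q : ℕ, IsP i q → ∃ x : ℕ, 1 ≤ x ∧ iPrime i x = q := by
  have hpr : ∀ q : ℕ, q.Prime → pr (Nat.primeCounting q) = q := by
    intro q hq
    unfold pr Nat.primeCounting Nat.primeCounting'
    rw [Nat.count_succ, if_pos hq, Nat.add_sub_cancel]
    exact Nat.nth_count hq
  induction i with
  | zero =>
    intro q hq
    refine ⟨Nat.primeCounting q, pi_pos hq, ?_⟩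
    show pr^[0 + 1] _ = q
    rw [zero_add, Function.iterate_one]
    exact hpr q hq
  | succ i ih =>
    rintro q ⟨hq, h⟩
    obtain ⟨x, hx, h1⟩ := ih _ h
    refine ⟨x, hx, ?_⟩
    show pr^[i + 1 + 1] x = q
    rw [Function.iterate_succ_apply']
    have : pr^[i + 1] x = Nat.primeCounting q := h1
    rw [this]
    exact hpr q hq

theorem result (a b : ℕ) (ε : ℝ) (hε : 0 < ε) : ∀ᶠ X : ℕ in atTop,
    (X : ℝ) / Real.log X ^ ε ≤ ((represented a b X).card : ℝ) := by
  classical
  filter_upwards [main a b ε hε] with X hX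
  refine hX.trans ?_
  have h : hs a b X ⊆ represented a b X := by
    intro n hn
    unfold hs at hn
    rw [mem_filter] at hn
    obtain ⟨h1, p, q, h2, h3, h4, h5, h6⟩ := hn
    obtain ⟨x, hx, hx2⟩ := exists_index a p h2
    obtain ⟨y, hy, hy2⟩ := exists_index b q h3
    unfold represented
    rw [mem_filter]
    refine ⟨h1, x, y, ⟨hx, hy, ?_, ?_⟩, ?_⟩
    · rw [hx2, hy2, h6]
    · rw [hx2, hy2]
      exact h4.ne
    · rw [hx2]
      exact h5
  exact_mod_cast card_le_card h

end Pool.Agent.Results.MP_e3f158_nt.AllTypesManyEvenNumbers
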